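import Pool.Agent.PRB.Defs

set_option autoImplicit false

namespace Pool.Agent.PRB

open Finset

section PEbasic

variable {V α : Type} [Fintype V] [DecidableEq V] [Fintype α]

theorem PE_add (w : V → α → ℝ) (F G : (V → α) → ℝ) :
    PE w (fun x => F x + G x) = PE w F + PE w G := by
  simp only [PE, mul_add, sum_add_distrib]

theorem PE_sub (w : V → α → ℝ) (F G : (V → α) → ℝ) :
    PE w (fun x => F x - G x) = PE w F - PE w G := by
  simp only [PE, mul_sub, sum_sub_distrib]

theorem PE_const_mul (w : V → α → ℝ) (c : ℝ) (F : (V → α) → ℝ) :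
    PE w (fun x => c * F x) = c * PE w F := by
  simp only [PE, mul_sum]
  exact sum_congr rfl fun x _ => by ring

theorem PE_mul_const (w : V → α → ℝ) (c : ℝ) (F : (V → α) → ℝ) :
    PE w (fun x => F x * c) = PE w F * c := by
  simp only [PE, sum_mul]
  exact sum_congr rfl fun x _ => by ring

theorem PE_sum {ι : Type} (w : V → α → ℝ) (s : Finset ι) (F : ι → (V → α) → ℝ) :
    PE w (fun x => ∑ i ∈ s, F i x) = ∑ i ∈ s, PE w (F i) := by
  simp only [PE, mul_sum]
  exact sum_comm

theorem wprod_nonneg {w : V → α → ℝ} (hw : IsW w) (x : V → α) : 0 ≤ ∏ v, w v (x v) :=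
  prod_nonneg fun v _ => hw.1 v (x v)

theorem PE_mono {w : V → α → ℝ} (hw : IsW w) {F G : (V → α) → ℝ} (h : ∀ x, F x ≤ G x) :
    PE w F ≤ PE w G :=
  sum_le_sum fun x _ => mul_le_mul_of_nonneg_left (h x) (wprod_nonneg hw x)

theorem PE_nonneg {w : V → α → ℝ} (hw : IsW w) {F : (V → α) → ℝ} (h : ∀ x, 0 ≤ F x) :
    0 ≤ PE w F :=
  sum_nonneg fun x _ => mul_nonneg (wprod_nonneg hw x) (h x)

/-- expectation of a product of functions of single coordinates -/
theorem PE_prod (w g : V → α → ℝ) :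
    PE w (fun x => ∏ v, g v (x v)) = ∏ v, ∑ a, w v a * g v a := by
  unfold PE
  rw [Finset.prod_univ_sum, Fintype.piFinset_univ]
  exact sum_congr rfl fun x _ => by rw [prod_mul_distrib]

theorem PE_one {w : V → α → ℝ} (hw : IsW w) : PE w (fun _ => (1 : ℝ)) = 1 := by
  have h := PE_prod w (fun _ _ => (1 : ℝ))
  simp only [prod_const_one, mul_one, hw.2] at h
  exact h

theorem PE_const {w : V → α → ℝ} (hw : IsW w) (c : ℝ) : PE w (fun _ => c) = c := by
  have h := PE_const_mul w c (fun _ => (1 : ℝ))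
  simp only [mul_one, PE_one hw] at h
  exact h

theorem PP_nonneg {w : V → α → ℝ} (hw : IsW w) (p : (V → α) → Prop) : 0 ≤ PP w p := by
  unfold PP
  exact PE_nonneg hw fun x => by split_ifs <;> norm_num

theorem PP_le_one {w : V → α → ℝ} (hw : IsW w) (p : (V → α) → Prop) : PP w p ≤ 1 := by
  unfold PP
  calc PE w _ ≤ PE w (fun _ => (1 : ℝ)) := PE_mono hw fun x => by split_ifs <;> norm_num
    _ = 1 := PE_one hw

theorem PP_mono {w : V → α → ℝ} (hw : IsW w) {p q : (V → α) → Prop} (h : ∀ x, p x → q x) :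
    PP w p ≤ PP w q := by
  unfold PP
  refine PE_mono hw fun x => ?_
  by_cases hp : p x
  · rw [if_pos hp, if_pos (h x hp)]
  · rw [if_neg hp]; split_ifs <;> norm_num

theorem PP_or_le {w : V → α → ℝ} (hw : IsW w) (p q : (V → α) → Prop) :
    PP w (fun x => p x ∨ q x) ≤ PP w p + PP w q := by
  unfold PP
  rw [← PE_add]
  refine PE_mono hw fun x => ?_
  by_cases hp : p x <;> by_cases hq : q x <;> simp [hp, hq]

open Classical in
/-- union bound over a finset -/
theorem PP_exists_le {ι : Type} {w : V → α → ℝ} (hw : IsW w) (s : Finset ι)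
    (p : ι → (V → α) → Prop) :
    PP w (fun x => ∃ i ∈ s, p i x) ≤ ∑ i ∈ s, PP w (p i) := by
  unfold PP
  rw [← PE_sum]
  refine PE_mono hw fun x => ?_
  by_cases h : ∃ i ∈ s, p i x
  · rw [if_pos h]
    obtain ⟨i, hi, hpi⟩ := h
    calc (1 : ℝ) = if p i x then (1 : ℝ) else 0 := by rw [if_pos hpi]
      _ ≤ ∑ j ∈ s, if p j x then (1 : ℝ) else 0 :=
        single_le_sum (f := fun j => if p j x then (1 : ℝ) else 0)
          (fun j _ => by split_ifs <;> norm_num) hi
  · rw [if_neg h]
    exact sum_nonneg fun j _ => by split_ifs <;> norm_num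

/-- Markov's inequality -/
theorem PP_markov {w : V → α → ℝ} (hw : IsW w) {F : (V → α) → ℝ} (hF : ∀ x, 0 ≤ F x) {t : ℝ}
    (ht : 0 < t) : PP w (fun x => t ≤ F x) ≤ PE w F / t := by
  unfold PP
  rw [le_div_iff₀ ht, ← PE_mul_const]
  refine PE_mono hw fun x => ?_
  by_cases h : t ≤ F x
  · rw [if_pos h, one_mul]; exact h
  · rw [if_neg h, zero_mul]; exact hF x

/-- an event of probability less than one has a point outside it -/
theorem exists_not_of_PP_lt {w : V → α → ℝ} (hw : IsW w) {p : (V → α) → Prop} (h : PP w p < 1) :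
    ∃ x, ¬ p x := by
  by_contra hcon
  push Not at hcon
  have h1 : PP w p = 1 := by
    unfold PP
    calc PE w _ = PE w (fun _ => (1 : ℝ)) := by
          congr 1; funext x; rw [if_pos (hcon x)]
      _ = 1 := PE_one hw
  linarith

/-- Block independence: if the functions `h v x` depend on `x` only outside the block `B`, then the
coordinates inside `B` can be integrated out one by one. -/
theorem PE_block {w : V → α → ℝ} (hw : IsW w) (B : Finset V) (h : V → (V → α) → α → ℝ)
    (hdep : ∀ v x x', (∀ u, u ∉ B → x u = x' u) → h v x = h v x') :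
    PE w (fun x => ∏ v ∈ B, h v x (x v)) = PE w (fun x => ∏ v ∈ B, ∑ a, w v a * h v x a) := by
  classical
  -- the equivalence splitting configurations
  let e := Equiv.piEquivPiSubtypeProd (fun v : V => v ∈ B) (fun _ => α)
  have hcoe1 : ∀ (y : (v : {v // v ∈ B}) → α) (z : (v : {v // ¬ v ∈ B}) → α) (v : V) (hv : v ∈ B),
      e.symm (y, z) v = y ⟨v, hv⟩ := by
    intro y z v hv
    simp [e, Equiv.piEquivPiSubtypeProd, hv]
  have hcoe2 : ∀ (y : (v : {v // v ∈ B}) → α) (z : (v : {v // ¬ v ∈ B}) → α) (v : V) (hv : ¬ v ∈ B),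
      e.symm (y, z) v = z ⟨v, hv⟩ := by
    intro y z v hv
    simp [e, Equiv.piEquivPiSubtypeProd, hv]
  have key : ∀ F : (V → α) → ℝ, PE w F =
      ∑ z : (v : {v // ¬ v ∈ B}) → α, ∑ y : (v : {v // v ∈ B}) → α,
        (∏ v, w v.1 (z v)) * ((∏ v, w v.1 (y v)) * F (e.symm (y, z))) := by
    intro F
    unfold PE
    rw [← e.symm.sum_comp, Fintype.sum_prod_type_right]
    refine sum_congr rfl fun z _ => sum_congr rfl fun y _ => ?_
    have h1 : ∏ v, w v (e.symm (y, z) v) = (∏ v : {v // v ∈ B}, w v.1 (y v)) *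
        ∏ v : {v // ¬ v ∈ B}, w v.1 (z v) := by
      rw [← Fintype.prod_subtype_mul_prod_subtype (fun v => v ∈ B)
        (fun v => w v (e.symm (y, z) v))]
      congr 1
      · refine prod_congr (Finset.ext fun v => by simp) fun v _ => ?_
        rw [hcoe1 y z v.1 v.2]
      · refine prod_congr (Finset.ext fun v => by simp) fun v _ => ?_
        rw [hcoe2 y z v.1 v.2]
    rw [h1]; ring
  rw [key, key]
  refine sum_congr rfl fun z _ => ?_
  rw [← mul_sum, ← mul_sum]
  congr 1
  by_cases hα : Nonempty ((v : {v // v ∈ B}) → α)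
  · obtain ⟨y0⟩ := hα
    -- everything depends only on z
    have hd : ∀ (y : (v : {v // v ∈ B}) → α) (v : V), h v (e.symm (y, z)) = h v (e.symm (y0, z)) := by
      intro y v
      apply hdep
      intro u hu
      rw [hcoe2 y z u hu, hcoe2 y0 z u hu]
    have hone : ∑ y : (v : {v // v ∈ B}) → α, ∏ v, w v.1 (y v) = 1 := by
      have h2 := Finset.prod_univ_sum (fun _ : {v // v ∈ B} => (univ : Finset α))
        (fun v a => w v.1 a)
      rw [Fintype.piFinset_univ] at h2
      rw [← h2]
      exact prod_eq_one fun v _ => hw.2 v.1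
    have hR : ∑ y : (v : {v // v ∈ B}) → α, (∏ v, w v.1 (y v)) *
        ∏ v ∈ B, ∑ a, w v a * h v (e.symm (y, z)) a =
        ∏ v ∈ B, ∑ a, w v a * h v (e.symm (y0, z)) a := by
      calc _ = ∑ y : (v : {v // v ∈ B}) → α, (∏ v, w v.1 (y v)) *
            ∏ v ∈ B, ∑ a, w v a * h v (e.symm (y0, z)) a := by
            refine sum_congr rfl fun y _ => ?_
            congr 1
            exact prod_congr rfl fun v _ => by rw [hd y v]
        _ = _ := by rw [← sum_mul, hone, one_mul]
    have hL : ∑ y : (v : {v // v ∈ B}) → α, (∏ v, w v.1 (y v)) *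
        ∏ v ∈ B, h v (e.symm (y, z)) (e.symm (y, z) v) =
        ∏ v ∈ B, ∑ a, w v a * h v (e.symm (y0, z)) a := by
      calc _ = ∑ y : (v : {v // v ∈ B}) → α,
            ∏ v : {v // v ∈ B}, w v.1 (y v) * h v.1 (e.symm (y0, z)) (y v) := by
            refine sum_congr rfl fun y _ => ?_
            rw [prod_mul_distrib]
            congr 1
            rw [← prod_coe_sort B (fun v => h v (e.symm (y, z)) (e.symm (y, z) v))]
            exact prod_congr rfl fun v _ => by rw [hd y v.1, hcoe1 y z v.1 v.2]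
        _ = ∏ v : {v // v ∈ B}, ∑ a, w v.1 a * h v.1 (e.symm (y0, z)) a := by
            have h2 := Finset.prod_univ_sum (fun _ : {v // v ∈ B} => (univ : Finset α))
              (fun v a => w v.1 a * h v.1 (e.symm (y0, z)) a)
            rw [Fintype.piFinset_univ] at h2
            exact h2.symm
        _ = _ := prod_coe_sort B (fun v => ∑ a, w v a * h v (e.symm (y0, z)) a)
    rw [hL, hR]
  · have : IsEmpty ((v : {v // v ∈ B}) → α) := not_nonempty_iff.mp hα
    rw [Fintype.sum_empty, Fintype.sum_empty]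

/-- Conditioning on a product event. -/
theorem PE_cond [DecidableEq α] (w : V → α → ℝ) (C : V → Finset α) (c : V → ℝ)
    (hc0 : ∀ v, c v ≠ 0) (F : (V → α) → ℝ) :
    PE w (fun x => (if ∀ v, x v ∈ C v then (1 : ℝ) else 0) * F x) =
      (∏ v, c v) * PE (fun v a => if a ∈ C v then w v a / c v else 0) F := by
  unfold PE
  rw [mul_sum]
  refine sum_congr rfl fun x _ => ?_
  dsimp only
  by_cases h : ∀ v, x v ∈ C v
  · rw [if_pos h, one_mul, ← mul_assoc, ← prod_mul_distrib]
    congr 1
    refine prod_congr rfl fun v _ => ?_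
    rw [if_pos (h v), mul_div_cancel₀ _ (hc0 v)]
  · rw [if_neg h]
    push Not at h
    obtain ⟨v, hv⟩ := h
    have h0 : ∏ v, (if x v ∈ C v then w v (x v) / c v else 0) = 0 :=
      prod_eq_zero (mem_univ v) (if_neg hv)
    rw [h0]; ring

omit [Fintype V] [DecidableEq V] in
theorem IsW_cond [DecidableEq α] {w : V → α → ℝ} (hw : IsW w) (C : V → Finset α) (c : V → ℝ)
    (hc : ∀ v, ∑ a ∈ C v, w v a = c v) (hc0 : ∀ v, c v ≠ 0) :
    IsW (fun v a => if a ∈ C v then w v a / c v else 0) := by
  refine ⟨fun v a => ?_, fun v => ?_⟩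
  · dsimp only
    split_ifs
    · refine div_nonneg (hw.1 v a) ?_
      rw [← hc v]
      exact sum_nonneg fun a _ => hw.1 v a
    · exact le_rfl
  · dsimp only
    rw [← sum_filter, filter_mem_eq_inter, univ_inter, ← sum_div, hc v, div_self (hc0 v)]

end PEbasic

end Pool.Agent.PRB
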