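import Pool.Agent.PRB.Basics

set_option autoImplicit false

namespace Pool.Agent.PRB

open Finset

/-! ### the single vertex distribution -/

theorem wt_nonneg {n K : ℕ} (hK : K ≤ n) (a : St K) : 0 ≤ wt n K a := by
  unfold wt
  split_ifs
  · have : (K : ℝ) / n ≤ 1 := div_le_one_of_le₀ (by exact_mod_cast hK) (Nat.cast_nonneg n)
    linarith
  · positivity

theorem sum_St {K : ℕ} (F : St K → ℝ) :
    ∑ a, F a = F (true, 0) + F (false, 0) + ∑ j : Fin K, (F (true, j.succ) + F (false, j.succ)) := by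
  rw [Fintype.sum_prod_type, Fintype.sum_bool, Fin.sum_univ_succ, Fin.sum_univ_succ,
    sum_add_distrib]
  ring

theorem sum_Fin_Icc (K : ℕ) (g : ℕ → ℝ) : ∑ j : Fin K, g (j + 1) = ∑ j ∈ Icc 1 K, g j := by
  rw [Fin.sum_univ_eq_sum_range (fun j => g (j + 1)) K, range_eq_Ico, sum_Ico_add' g 0 K 1]
  rfl

/-- master formula for the position -/
theorem sum_wt_pos {n K : ℕ} (hn : 0 < n) (g : ℕ → ℝ) :
    ∑ a : St K, wt n K a * g (pos a) =
      (1 - (K : ℝ) / n) / 2 * (g 0 + g (K + 1)) + 1 / (n : ℝ) * ∑ j ∈ Icc 1 K, g j := by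
  have hn' : (n : ℝ) ≠ 0 := by positivity
  rw [sum_St, ← sum_Fin_Icc]
  have h1 : ∀ j : Fin K, wt n K ((true, j.succ) : St K) * g (pos ((true, j.succ) : St K)) +
      wt n K ((false, j.succ) : St K) * g (pos ((false, j.succ) : St K)) =
      1 / (n : ℝ) * g ((j : ℕ) + 1) := by
    intro j
    simp only [wt, pos, Fin.succ_ne_zero, if_false, Fin.val_succ]
    field_simp
    ring
  rw [sum_congr rfl fun j _ => h1 j, ← mul_sum]
  simp only [wt, pos, if_true]
  norm_num
  ring

/-- master formula for the position and the sign -/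
theorem sum_wt_sg_pos {n K : ℕ} (g : ℕ → ℝ) :
    ∑ a : St K, wt n K a * (sg a * g (pos a)) =
      (1 - (K : ℝ) / n) / 2 * (g 0 - g (K + 1)) := by
  rw [sum_St]
  have h1 : ∀ j : Fin K, wt n K ((true, j.succ) : St K) * (sg ((true, j.succ) : St K) *
      g (pos ((true, j.succ) : St K))) +
      wt n K ((false, j.succ) : St K) * (sg ((false, j.succ) : St K) *
      g (pos ((false, j.succ) : St K))) = 0 := by
    intro j
    simp only [wt, pos, sg, Fin.succ_ne_zero, if_false, if_true]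
    norm_num
  rw [sum_congr rfl fun j _ => h1 j]
  simp only [wt, pos, sg, if_true]
  norm_num
  ring

theorem wt_sum {n K : ℕ} (hn : 0 < n) : ∑ a : St K, wt n K a = 1 := by
  have h := sum_wt_pos (K := K) hn (fun _ => (1 : ℝ))
  have hn' : (n : ℝ) ≠ 0 := by positivity
  simp only [mul_one, sum_const, Nat.card_Icc, nsmul_eq_mul, Nat.add_sub_cancel] at h
  rw [h]; field_simp; ring

theorem IsW_W0 {N n K : ℕ} (hn : 0 < n) (hK : K ≤ n) : IsW (W0 N n K) :=
  ⟨fun _ a => wt_nonneg hK a, fun _ => wt_sum hn⟩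

theorem sum_pos_le {n K i : ℕ} (hn : 0 < n) (hi : i ≤ K) :
    ∑ a ∈ univ.filter (fun a : St K => pos a ≤ i), wt n K a = dn n K i := by
  have h := sum_wt_pos (K := K) hn (fun j => if j ≤ i then (1 : ℝ) else 0)
  have hn' : (n : ℝ) ≠ 0 := by positivity
  rw [sum_filter]
  have h2 : ∑ j ∈ Icc 1 K, (if j ≤ i then (1 : ℝ) else 0) = i := by
    rw [← sum_filter, sum_const, nsmul_eq_mul, mul_one]
    have : (Icc 1 K).filter (fun j => j ≤ i) = Icc 1 i := by
      ext j; simp only [mem_filter, mem_Icc]; omega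
    rw [this, Nat.card_Icc, Nat.add_sub_cancel]
  rw [h2] at h
  have h3 : ¬ (K + 1 ≤ i) := by omega
  simp only [mul_ite, mul_one, mul_zero, Nat.zero_le, if_true, if_neg h3] at h
  rw [h, dn]; field_simp; ring

theorem sum_pos_ge {n K i : ℕ} (hn : 0 < n) (h1 : 1 ≤ i) (hi : i ≤ K + 1) :
    ∑ a ∈ univ.filter (fun a : St K => i ≤ pos a), wt n K a = 1 - dn n K (i - 1) := by
  have h := sum_filter_add_sum_filter_not (univ : Finset (St K)) (fun a => pos a ≤ i - 1)
    (fun a => wt n K a)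
  rw [sum_pos_le hn (by omega), wt_sum hn] at h
  have h2 : (univ.filter (fun a : St K => ¬ pos a ≤ i - 1)) = univ.filter (fun a : St K => i ≤ pos a) := by
    ext a; simp only [mem_filter, mem_univ, true_and]; omega
  rw [h2] at h
  linarith

theorem sum_pos_eq {n K i : ℕ} (hn : 0 < n) (h1 : 1 ≤ i) (hi : i ≤ K) :
    ∑ a ∈ univ.filter (fun a : St K => pos a = i), wt n K a = 1 / (n : ℝ) := by
  have h := sum_wt_pos (K := K) hn (fun j => if j = i then (1 : ℝ) else 0)
  rw [sum_filter]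
  have h2 : ∑ j ∈ Icc 1 K, (if j = i then (1 : ℝ) else 0) = 1 := by
    rw [sum_ite_eq' (Icc 1 K) i, if_pos (mem_Icc.mpr ⟨h1, hi⟩)]
  rw [h2] at h
  have h3 : ¬ (K + 1 = i) := by omega
  have h4 : ¬ (0 = i) := by omega
  simp only [mul_ite, mul_one, mul_zero, if_neg h3, if_neg h4] at h
  rw [h]; ring

theorem sum_pos_zero {n K : ℕ} (hn : 0 < n) :
    ∑ a ∈ univ.filter (fun a : St K => pos a = 0), wt n K a = (1 - (K : ℝ) / n) / 2 := by
  have h := sum_wt_pos (K := K) hn (fun j => if j = 0 then (1 : ℝ) else 0)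
  rw [sum_filter]
  have h2 : ∑ j ∈ Icc 1 K, (if j = 0 then (1 : ℝ) else 0) = 0 :=
    sum_eq_zero fun j hj => if_neg (by have := (mem_Icc.mp hj).1; omega)
  rw [h2] at h
  have h3 : ¬ (K + 1 = 0) := by omega
  simp only [mul_ite, mul_one, mul_zero, if_neg h3, if_true] at h
  rw [h]; ring

theorem sum_pos_top {n K : ℕ} (hn : 0 < n) :
    ∑ a ∈ univ.filter (fun a : St K => pos a = K + 1), wt n K a = (1 - (K : ℝ) / n) / 2 := by
  have h := sum_wt_pos (K := K) hn (fun j => if j = K + 1 then (1 : ℝ) else 0)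
  rw [sum_filter]
  have h2 : ∑ j ∈ Icc 1 K, (if j = K + 1 then (1 : ℝ) else 0) = 0 :=
    sum_eq_zero fun j hj => if_neg (by have := (mem_Icc.mp hj).2; omega)
  rw [h2] at h
  have h3 : ¬ (0 = K + 1) := by omega
  simp only [mul_ite, mul_one, mul_zero, if_neg h3, if_true] at h
  rw [h]; ring

theorem sum_sg_le {n K i : ℕ} (hi : i ≤ K) :
    ∑ a ∈ univ.filter (fun a : St K => pos a ≤ i), wt n K a * sg a = (1 - (K : ℝ) / n) / 2 := by
  have h := sum_wt_sg_pos (n := n) (K := K) (fun j => if j ≤ i then (1 : ℝ) else 0)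
  rw [sum_filter]
  have h3 : ¬ (K + 1 ≤ i) := by omega
  simp only [mul_ite, mul_one, mul_zero, Nat.zero_le, if_true, if_neg h3, sub_zero] at h
  exact h

theorem sum_sg_ge {n K i : ℕ} (h1 : 1 ≤ i) (hi : i ≤ K + 1) :
    ∑ a ∈ univ.filter (fun a : St K => i ≤ pos a), wt n K a * sg a = -((1 - (K : ℝ) / n) / 2) := by
  have h := sum_wt_sg_pos (n := n) (K := K) (fun j => if i ≤ j then (1 : ℝ) else 0)
  rw [sum_filter]
  have h3 : ¬ (i ≤ 0) := by omega
  simp only [mul_ite, mul_one, mul_zero, if_pos hi, if_neg h3] at h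
  rw [h]; ring

theorem sum_sg_eq {n K i : ℕ} (h1 : 1 ≤ i) (hi : i ≤ K) :
    ∑ a ∈ univ.filter (fun a : St K => pos a = i), wt n K a * sg a = 0 := by
  have h := sum_wt_sg_pos (n := n) (K := K) (fun j => if j = i then (1 : ℝ) else 0)
  rw [sum_filter]
  have h3 : ¬ (K + 1 = i) := by omega
  have h4 : ¬ (0 = i) := by omega
  simp only [mul_ite, mul_one, mul_zero, if_neg h3, if_neg h4] at h
  rw [h]; ring

theorem sum_sg {n K : ℕ} : ∑ a : St K, wt n K a * sg a = 0 := by
  have h := sum_wt_sg_pos (n := n) (K := K) (fun _ => (1 : ℝ))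
  simp only [mul_one, sub_self, mul_zero] at h
  exact h

theorem sg_sq {K : ℕ} (a : St K) : sg a ^ 2 = 1 := by
  unfold sg; split_ifs <;> norm_num

theorem sg_abs {K : ℕ} (a : St K) : |sg a| = 1 := by
  unfold sg; split_ifs <;> norm_num

/-! ### densities -/

theorem dn_pos {n K : ℕ} (i : ℕ) (hK : K < n) : 0 < dn n K i := by
  unfold dn
  have hn : (0 : ℝ) < n := by exact_mod_cast lt_of_le_of_lt (Nat.zero_le K) hK
  have h1 : (K : ℝ) < n := by exact_mod_cast hK
  have h2 : (1 / 2 + (2 * (i : ℝ) - K) / (2 * n)) = (n + 2 * i - K) / (2 * n) := by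
    field_simp; ring
  rw [h2]
  have h3 : (0 : ℝ) ≤ i := Nat.cast_nonneg i
  exact div_pos (by linarith) (by linarith)

theorem dn_le_one {n K i : ℕ} (hi : i ≤ K) (hK : K ≤ n) (hn : 0 < n) : dn n K i ≤ 1 := by
  unfold dn
  have hn' : (0 : ℝ) < n := by exact_mod_cast hn
  have h1 : (K : ℝ) ≤ n := by exact_mod_cast hK
  have h4 : (i : ℝ) ≤ K := by exact_mod_cast hi
  have h2 : (1 / 2 + (2 * (i : ℝ) - K) / (2 * n)) = (n + 2 * i - K) / (2 * n) := by
    field_simp; ring
  rw [h2, div_le_one (by linarith)]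
  linarith

theorem dn_succ {n K i : ℕ} : dn n K (i + 1) = dn n K i + 1 / (n : ℝ) := by
  unfold dn
  by_cases hn : n = 0
  · subst hn; simp
  · have hn' : (n : ℝ) ≠ 0 := by exact_mod_cast hn
    push_cast
    field_simp
    ring

/-- `2 * dn = 1 + (2i-K)/n` -/
theorem two_dn {n K i : ℕ} : 2 * dn n K i = 1 + (2 * (i : ℝ) - K) / n := by
  unfold dn
  by_cases hn : n = 0
  · subst hn; simp
  · have hn' : (n : ℝ) ≠ 0 := by exact_mod_cast hn
    field_simp
    

theorem dn_pow_le {n K i : ℕ} (hK : K < n) :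
    dn n K i ^ n ≤ (1 / 2) ^ n * Real.exp (2 * (i : ℝ) - K) := by
  have hn : (0 : ℝ) < n := by exact_mod_cast lt_of_le_of_lt (Nat.zero_le K) hK
  have h1 : dn n K i = (1 / 2) * (1 + (2 * (i : ℝ) - K) / n) := by
    have := two_dn (n := n) (K := K) (i := i); linarith
  have h0 : 0 ≤ 1 + (2 * (i : ℝ) - K) / n := by
    have := dn_pos (n := n) (K := K) i hK
    rw [h1] at this
    nlinarith
  rw [h1, mul_pow]
  refine mul_le_mul_of_nonneg_left ?_ (by positivity)
  calc (1 + (2 * (i : ℝ) - K) / n) ^ n ≤ (Real.exp ((2 * (i : ℝ) - K) / n)) ^ n := by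
        refine pow_le_pow_left₀ h0 ?_ n
        have := Real.add_one_le_exp ((2 * (i : ℝ) - K) / n)
        linarith
    _ = Real.exp (2 * (i : ℝ) - K) := by
        rw [← Real.exp_nat_mul]; congr 1; field_simp

/-! ### PS -/

theorem PS_add {N : ℕ} (p : ℝ) (F G : Finset (Fin N) → ℝ) :
    PS N p (fun S => F S + G S) = PS N p F + PS N p G := by
  simp only [PS, mul_add, sum_add_distrib]

theorem PS_sub {N : ℕ} (p : ℝ) (F G : Finset (Fin N) → ℝ) :
    PS N p (fun S => F S - G S) = PS N p F - PS N p G := by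
  simp only [PS, mul_sub, sum_sub_distrib]

theorem PS_const_mul {N : ℕ} (p c : ℝ) (F : Finset (Fin N) → ℝ) :
    PS N p (fun S => c * F S) = c * PS N p F := by
  simp only [PS, mul_sum]
  exact sum_congr rfl fun x _ => by ring

theorem PS_sum {N : ℕ} {ι : Type} (p : ℝ) (s : Finset ι) (F : ι → Finset (Fin N) → ℝ) :
    PS N p (fun S => ∑ i ∈ s, F i S) = ∑ i ∈ s, PS N p (F i) := by
  simp only [PS, mul_sum]
  exact sum_comm

theorem PS_mono {N : ℕ} {p : ℝ} (h0 : 0 ≤ p) (h1 : p ≤ 1) {F G : Finset (Fin N) → ℝ}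
    (h : ∀ S, F S ≤ G S) : PS N p F ≤ PS N p G := by
  have h2 : 0 ≤ 1 - p := by linarith
  exact sum_le_sum fun S _ => mul_le_mul_of_nonneg_left (h S) (by positivity)

theorem PS_nonneg {N : ℕ} {p : ℝ} (h0 : 0 ≤ p) (h1 : p ≤ 1) {F : Finset (Fin N) → ℝ}
    (h : ∀ S, 0 ≤ F S) : 0 ≤ PS N p F := by
  have h2 : 0 ≤ 1 - p := by linarith
  exact sum_nonneg fun S _ => mul_nonneg (by positivity) (h S)

/-- Bernoulli weights -/
noncomputable def bw (N : ℕ) (p : ℝ) : Fin N → Bool → ℝ := fun _ b => if b then p else 1 - p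

theorem IsW_bw {N : ℕ} {p : ℝ} (h0 : 0 ≤ p) (h1 : p ≤ 1) : IsW (bw N p) := by
  refine ⟨fun v a => ?_, fun v => ?_⟩
  · unfold bw; split_ifs <;> linarith
  · simp only [bw, Fintype.sum_bool]; norm_num

/-- the equivalence between Bool-valued functions and finsets -/
theorem PS_eq_PE {N : ℕ} (p : ℝ) (F : Finset (Fin N) → ℝ) :
    PS N p F = PE (bw N p) (fun x => F (univ.filter (fun v => x v = true))) := by
  unfold PS PE
  refine Fintype.sum_equiv (ι := Finset (Fin N))
    ⟨fun S v => decide (v ∈ S), fun x => univ.filter (fun v => x v = true),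
      fun S => by ext v; simp, fun x => by funext v; simp⟩ _ _ fun S => ?_
  have h1 : univ.filter (fun v => (decide (v ∈ S)) = true) = S := by ext v; simp
  simp only [Equiv.coe_fn_mk, h1]
  congr 1
  have h2 : ∀ v : Fin N, bw N p v (decide (v ∈ S)) = if v ∈ S then p else 1 - p := by
    intro v; unfold bw; by_cases h : v ∈ S <;> simp [h]
  rw [prod_congr rfl fun v _ => h2 v, prod_ite, prod_const, prod_const]
  have h3 : (univ.filter (fun v => v ∈ S)) = S := by ext v; simp
  have h4 : (univ.filter (fun v => ¬ v ∈ S)).card = N - S.card := by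
    have : (univ.filter (fun v => ¬ v ∈ S)) = Sᶜ := by ext v; simp
    rw [this, card_compl, Fintype.card_fin]
  rw [h3, h4]

/-- push-forward of a product of weights under a coordinatewise map -/
theorem PE_map {V α β : Type} [Fintype V] [DecidableEq V] [Fintype α] [Fintype β] [DecidableEq β]
    (w : V → α → ℝ) (φ : V → α → β) (F : (V → β) → ℝ) :
    PE w (fun x => F (fun v => φ v (x v))) =
      PE (fun v b => ∑ a ∈ univ.filter (fun a => φ v a = b), w v a) F := by
  unfold PE
  have h1 : ∀ y : V → β, (∏ v, ∑ a ∈ univ.filter (fun a => φ v a = y v), w v a) =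
      ∑ x ∈ univ.filter (fun x : V → α => (fun v => φ v (x v)) = y), ∏ v, w v (x v) := by
    intro y
    rw [Finset.prod_univ_sum]
    refine sum_congr ?_ fun x _ => rfl
    ext x
    simp only [Fintype.mem_piFinset, mem_filter, mem_univ, true_and, funext_iff]
  simp only [h1, sum_mul]
  rw [← sum_fiberwise_of_maps_to (s := (univ : Finset (V → α))) (t := (univ : Finset (V → β)))
    (g := fun x v => φ v (x v)) (fun x _ => mem_univ _)]
  refine sum_congr rfl fun y _ => sum_congr rfl fun x hx => ?_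
  rw [(mem_filter.mp hx).2]

/-- law of the level set -/
theorem PE_Lv {N n K i : ℕ} (hn : 0 < n) (hi : i ≤ K) (F : Finset (Fin N) → ℝ) :
    PE (W0 N n K) (fun x => F (Lv x i)) = PS N (dn n K i) F := by
  rw [PS_eq_PE]
  have h1 := PE_map (W0 N n K) (fun (_ : Fin N) (a : St K) => decide (pos a ≤ i))
    (fun y => F (univ.filter (fun v => y v = true)))
  have h2 : (fun x : Fin N → St K => F (Lv x i)) = fun x => (fun y : Fin N → Bool =>
      F (univ.filter (fun v => y v = true))) (fun v => decide (pos (x v) ≤ i)) := by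
    funext x; simp [Lv]
  rw [h2]
  refine h1.trans ?_
  congr 1
  funext v b
  cases b
  · simp only [decide_eq_false_iff_not]
    have h3 := sum_filter_add_sum_filter_not (univ : Finset (St K)) (fun a => pos a ≤ i)
      (fun a => wt n K a)
    rw [sum_pos_le hn hi, wt_sum hn] at h3
    simp only [W0, bw, Bool.false_eq_true, if_false]
    linarith
  · simp only [decide_eq_true_eq]
    rw [show (bw N (dn n K i) v true) = dn n K i by simp [bw], ← sum_pos_le hn hi]
    rfl

/-- probability that a given set is contained in the random set -/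
theorem PS_subset {N : ℕ} (p : ℝ) (A : Finset (Fin N)) :
    PS N p (fun S => if A ⊆ S then (1 : ℝ) else 0) = p ^ A.card := by
  rw [PS_eq_PE]
  have h1 : (fun x : Fin N → Bool => if A ⊆ univ.filter (fun v => x v = true) then (1 : ℝ) else 0) =
      fun x => ∏ v, (if v ∈ A then (if x v = true then (1 : ℝ) else 0) else 1) := by
    funext x
    by_cases h : A ⊆ univ.filter (fun v => x v = true)
    · rw [if_pos h, prod_eq_one]
      intro v _
      by_cases hv : v ∈ A
      · rw [if_pos hv, if_pos (mem_filter.mp (h hv)).2]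
      · rw [if_neg hv]
    · rw [if_neg h]
      obtain ⟨v, hv, hv2⟩ := not_subset.mp h
      refine (prod_eq_zero (mem_univ v) ?_).symm
      rw [if_pos hv, if_neg]
      intro h3; exact hv2 (mem_filter.mpr ⟨mem_univ _, h3⟩)
  rw [h1]
  have h2 := PE_prod (bw N p) (fun v b => if v ∈ A then (if b = true then (1 : ℝ) else 0) else 1)
  refine h2.trans ?_
  have h3 : ∀ v : Fin N, ∑ b : Bool, bw N p v b * (if v ∈ A then (if b = true then (1 : ℝ) else 0)
      else 1) = if v ∈ A then p else 1 := by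
    intro v
    by_cases hv : v ∈ A <;> simp [hv, bw]
  rw [prod_congr rfl fun v _ => h3 v, prod_ite, prod_const, prod_const_one, mul_one]
  congr 2
  ext v; simp

/-- expected number of edges inside the random set -/
theorem PS_Wn {N n : ℕ} (p : ℝ) (E : Finset (Finset (Fin N))) (hE : ∀ A ∈ E, A.card = n) :
    PS N p (fun S => (Wn E S : ℝ)) = (E.card : ℝ) * p ^ n := by
  have h1 : (fun S : Finset (Fin N) => (Wn E S : ℝ)) =
      fun S => ∑ A ∈ E, (if A ⊆ S then (1 : ℝ) else 0) := by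
    funext S
    unfold Wn
    rw [card_filter]
    push_cast
    rfl
  rw [h1, PS_sum, sum_congr rfl fun A hA => by rw [PS_subset p A, hE A hA]]
  rw [sum_const, nsmul_eq_mul]

end Pool.Agent.PRB
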