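import Mathlib

set_option autoImplicit false

/-!
Definitions for the lower bound on the Property B number (see the paper proof
`MP_5e7c84_PRB.md` in the team store).  All probabilities are finite sums over configurations.
-/

namespace Pool.Agent.PRB

open Finset

/-- State of a vertex: a sign and a mark (mark `0` = unmarked, marks `1..K`). -/
abbrev St (K : ℕ) : Type := Bool × Fin (K + 1)

/-- Probability of a state. -/
noncomputable def wt (n K : ℕ) (a : St K) : ℝ :=
  if a.2 = 0 then (1 - (K : ℝ) / (n : ℝ)) / 2 else 1 / (2 * (n : ℝ))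

/-- Position of a state, a number in `0..K+1`. -/
def pos {K : ℕ} (a : St K) : ℕ :=
  if a.2 = 0 then (if a.1 then 0 else K + 1) else (a.2 : ℕ)

/-- Sign of a state. -/
noncomputable def sg {K : ℕ} (a : St K) : ℝ := if a.1 then 1 else -1

/-- Expectation of `F` under the product of the weights `w v`. -/
noncomputable def PE {V α : Type} [Fintype V] [DecidableEq V] [Fintype α]
    (w : V → α → ℝ) (F : (V → α) → ℝ) : ℝ :=
  ∑ x : V → α, (∏ v, w v (x v)) * F x

open Classical in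
/-- Probability of the event `p` under the product of the weights `w v`. -/
noncomputable def PP {V α : Type} [Fintype V] [DecidableEq V] [Fintype α]
    (w : V → α → ℝ) (p : (V → α) → Prop) : ℝ :=
  PE w (fun x => if p x then (1 : ℝ) else 0)

/-- The weights are probability distributions. -/
def IsW {V α : Type} [Fintype α] (w : V → α → ℝ) : Prop :=
  (∀ v a, 0 ≤ w v a) ∧ ∀ v, ∑ a, w v a = 1

/-- The random configuration: all vertices have the weight `wt n K`. -/
noncomputable def W0 (N n K : ℕ) : Fin N → St K → ℝ := fun _ => wt n K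

/-- Expectation over a random subset of `Fin N`, each point present with probability `p`. -/
noncomputable def PS (N : ℕ) (p : ℝ) (F : Finset (Fin N) → ℝ) : ℝ :=
  ∑ S : Finset (Fin N), p ^ S.card * (1 - p) ^ (N - S.card) * F S

/-- Density of the `i`-th level set. -/
noncomputable def dn (n K i : ℕ) : ℝ := 1 / 2 + (2 * (i : ℝ) - (K : ℝ)) / (2 * (n : ℝ))

/-- The `i`-th level set of a configuration. -/
def Lv {N K : ℕ} (x : Fin N → St K) (i : ℕ) : Finset (Fin N) :=
  univ.filter (fun v => pos (x v) ≤ i)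

/-- `Yb E B S`: the vertices `w` of `B` such that some edge meets `B` exactly in `w` and has all its
other vertices in `S`. -/
def Yb {N : ℕ} (E : Finset (Finset (Fin N))) (B S : Finset (Fin N)) : Finset (Fin N) :=
  B.filter (fun w => ∃ A ∈ E, A ∩ B = {w} ∧ A.erase w ⊆ S)

/-- Number of edges inside `S`. -/
def Wn {N : ℕ} (E : Finset (Finset (Fin N))) (S : Finset (Fin N)) : ℕ :=
  (E.filter (fun A => A ⊆ S)).card

/-- Number of edges inside `S` that contain `v`. -/
def Wv {N : ℕ} (E : Finset (Finset (Fin N))) (S : Finset (Fin N)) (v : Fin N) : ℕ :=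
  (E.filter (fun A => A ⊆ S ∧ v ∈ A)).card

/-- Union of the edges inside `S`. -/
def Un {N : ℕ} (E : Finset (Finset (Fin N))) (S : Finset (Fin N)) : Finset (Fin N) :=
  (E.filter (fun A => A ⊆ S)).biUnion id

/-- Petal mass of `S`. -/
noncomputable def Pet {N : ℕ} (E : Finset (Finset (Fin N))) (S : Finset (Fin N)) : ℝ :=
  ∑ v ∈ univ.filter (fun v => 2 * Wv E S v ≤ Wn E S), (Wv E S v : ℝ)

/-- The event containing `B is red`. -/
def RedEv {N K : ℕ} (E : Finset (Finset (Fin N))) (B : Finset (Fin N)) (x : Fin N → St K) : Prop :=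
  ∀ w ∈ B, pos (x w) = K + 1 ∨
    (1 ≤ pos (x w) ∧ pos (x w) ≤ K ∧ w ∈ Yb E B (Lv x (pos (x w))))

/-- `cn K Y w` counts the levels `i ∈ [1,K]` with `w ∈ Y i`. -/
def cn {N : ℕ} (K : ℕ) (Y : ℕ → Finset (Fin N)) (w : Fin N) : ℕ :=
  ((Icc 1 K).filter (fun i => w ∈ Y i)).card

/-- `cs K t Bl Y` counts the levels `i ∈ [1,K]` with `t ≤ |Y i ∩ Bl|`. -/
noncomputable def cs {N : ℕ} (K : ℕ) (t : ℝ) (Bl : Finset (Fin N)) (Y : ℕ → Finset (Fin N)) : ℕ :=
  ((Icc 1 K).filter (fun i => t ≤ ((Y i ∩ Bl).card : ℝ))).card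

/-- The level sequence `i ↦ Yb E B (S_i)` of a configuration. -/
def Yx {N K : ℕ} (E : Finset (Finset (Fin N))) (B : Finset (Fin N)) (x : Fin N → St K) (i : ℕ) :
    Finset (Fin N) := Yb E B (Lv x i)

/-- The function `g(t) = log ((t+θ₁)/(t+θ₀))`. -/
noncomputable def gg (θ₀ θ₁ t : ℝ) : ℝ := Real.log ((t + θ₁) / (t + θ₀))

/-- Expectation over a random subset of `S`, each point kept with probability `ρ`. -/
noncomputable def thin {N : ℕ} (ρ : ℝ) (S : Finset (Fin N)) (F : Finset (Fin N) → ℝ) : ℝ :=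
  ∑ S' ∈ S.powerset, ρ ^ S'.card * (1 - ρ) ^ (S.card - S'.card) * F S'

/-- The pair event `P(A,B,w,i)`. -/
def PairEv {N K : ℕ} (A B : Finset (Fin N)) (w : Fin N) (i : ℕ) (x : Fin N → St K) : Prop :=
  pos (x w) = i ∧ (∀ u ∈ A, u ≠ w → pos (x u) ≤ i) ∧ (∀ u ∈ B, u ≠ w → i ≤ pos (x u))

/-- Fraction of the edges of `E` that lie in `T`. -/
noncomputable def mu {N : ℕ} (E T : Finset (Finset (Fin N))) : ℝ := (T.card : ℝ) / (E.card : ℝ)

/-- `X_A(B') = |A ∩ B' ∩ V_ns|`. -/
def Xv {N : ℕ} (Vn A B : Finset (Fin N)) : ℕ := (A ∩ B ∩ Vn).card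

/-- `M_{uv}`: fraction of edges of `E` lying in `E'` and containing both `u, v`, for `u, v ∈ Vn`. -/
noncomputable def Mx {N : ℕ} (E E' : Finset (Finset (Fin N))) (Vn : Finset (Fin N))
    (u v : Fin N) : ℝ :=
  if u ∈ Vn ∧ v ∈ Vn then mu E (E'.filter (fun B => u ∈ B ∧ v ∈ B)) else 0

/-- The quadratic statistic. -/
noncomputable def Qs {N : ℕ} (M : Fin N → Fin N → ℝ) (z : Fin N → ℝ) : ℝ :=
  ∑ u, ∑ v ∈ univ.erase u, M u v * z u * z v

/-- `D(A,B)`. -/
noncomputable def Dd {N : ℕ} (E E' : Finset (Finset (Fin N))) (Vn : Finset (Fin N))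
    (A B : Finset (Fin N)) : ℝ :=
  (∑ B' ∈ E', ((Xv Vn A B' : ℝ) - (Xv Vn B B' : ℝ)) ^ 2) / (E.card : ℝ)

/-- Degree of a vertex divided by the number of edges. -/
noncomputable def qv {N : ℕ} (E : Finset (Finset (Fin N))) (v : Fin N) : ℝ :=
  mu E (E.filter (fun B => v ∈ B))

/-- Euclidean norm of a vector. -/
noncomputable def nrm {N : ℕ} (e : Fin N → ℝ) : ℝ := Real.sqrt (∑ v, e v ^ 2)

/-- `⟨1_A, e⟩`. -/
noncomputable def ip {N : ℕ} (A : Finset (Fin N)) (e : Fin N → ℝ) : ℝ := ∑ v ∈ A, e v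

/-- `⟨σ, e⟩` for a configuration `x`. -/
noncomputable def sp {N K : ℕ} (x : Fin N → St K) (e : Fin N → ℝ) : ℝ := ∑ v, e v * sg (x v)

end Pool.Agent.PRB
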