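import Pool.Agent.PRB.Basics2

set_option autoImplicit false

/-!
Statements of the modules (see the paper proof `MP_5e7c84_PRB.md` in the team store).
Notation there and here: `m = E.card`, `k = m / 2^n`, `s_i = dn n K i`.
-/

namespace Pool.Agent.PRB

open Finset

/-! ## the colouring -/

/-- COL: the Cherkashin–Kozik colouring. -/
def Stmt_COL : Prop :=
  ∀ (N K : ℕ) (E : Finset (Finset (Fin N))) (x : Fin N → ℕ), (∀ v, x v ≤ K + 1) →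
    ∃ f : Fin N → Bool,
      (∀ A ∈ E, (∀ v ∈ A, f v = true) → ∀ v ∈ A, x v = 0) ∧
      (∀ B ∈ E, (∀ v ∈ B, f v = false) → ∀ w ∈ B, x w = K + 1 ∨
        (1 ≤ x w ∧ x w ≤ K ∧ ∃ A ∈ E, A ∩ B = {w} ∧ ∀ u ∈ A, u ≠ w → x u ≤ x w))

/-! ## the light lemma -/

/-- RED: probability of the red event. -/
def Stmt_RED : Prop :=
  ∀ (N n K : ℕ) (E : Finset (Finset (Fin N))) (B : Finset (Fin N)),
    0 < n → K ≤ n → B.card = n →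
    PP (W0 N n K) (RedEv E B) ≤
      (1 / 2 : ℝ) ^ n * PE (W0 N n K)
        (fun x => Real.exp ((∑ w ∈ B, (2 * (cn K (Yx E B x) w : ℝ) - (K : ℝ))) / (n : ℝ)))

/-- YNG: Young's inequality (deterministic). -/
def Stmt_YNG : Prop :=
  ∀ (N n K : ℕ) (B Bl : Finset (Fin N)) (Y : ℕ → Finset (Fin N)) (d η : ℝ),
    0 < n → 1 ≤ K → B.card = n → Bl ⊆ B → (∀ i, Y i ⊆ B) → Monotone Y →
    0 ≤ d → 0 < η → d + η ≤ 1 → ((B \ Bl).card : ℝ) ≤ d * n →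
    Real.exp ((∑ w ∈ B, (2 * (cn K Y w : ℝ) - (K : ℝ))) / (n : ℝ)) ≤
      (K : ℝ) ^ (d + η) * Real.exp (2 * (cs K (η * n) Bl Y : ℝ) - (K : ℝ)) +
      (K : ℝ) ^ (d + η - 1) * ((∑ w ∈ B, Real.exp (2 * (cn K Y w : ℝ) - (K : ℝ))) / (n : ℝ))

/-- LAY: layer formula (deterministic). -/
def Stmt_LAY : Prop :=
  ∀ (K : ℕ) (p : ℕ → Prop) [DecidablePred p], (∀ i j, i ≤ j → p i → p j) →
    Real.exp (2 * (((Icc 1 K).filter p).card : ℝ) - (K : ℝ)) ≤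
      Real.exp (-(K : ℝ)) +
        8 * ∑ i ∈ Icc 1 K, Real.exp ((K : ℝ) - 2 * (i : ℝ)) * (if p i then (1 : ℝ) else 0)

/-- YSM: sum over `w ∈ B` of the probabilities of `w ∈ Yb E B S`. -/
def Stmt_YSM : Prop :=
  ∀ (N n : ℕ) (E : Finset (Finset (Fin N))) (B : Finset (Fin N)) (p : ℝ),
    0 < n → 0 ≤ p → p ≤ 1 → (∀ A ∈ E, A.card = n) →
    ∑ w ∈ B, PS N p (fun S => if w ∈ Yb E B S then (1 : ℝ) else 0) ≤ (E.card : ℝ) * p ^ (n - 1)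

/-- TRF: transfer from `Yb` to the union of the edges inside `S`. -/
def Stmt_TRF : Prop :=
  ∀ (N : ℕ) (E : Finset (Finset (Fin N))) (B Bl : Finset (Fin N)) (s t : ℝ),
    2 / 5 ≤ s → s ≤ 1 → 23 ≤ t → Bl ⊆ B →
    PS N s (fun S => if t ≤ ((Yb E B S ∩ Bl).card : ℝ) then (1 : ℝ) else 0) ≤
      2 * PS N s (fun S => if t / 4 ≤ ((Bl ∩ Un E S).card : ℝ) ∧ t / 4 ≤ (Wn E S : ℝ)
        then (1 : ℝ) else 0)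

/-- CPT: core and petals (deterministic). -/
def Stmt_CPT : Prop :=
  ∀ (N n : ℕ) (E T : Finset (Finset (Fin N))) (Bl : Finset (Fin N) → Finset (Fin N))
    (qb t θ₁ : ℝ) (S : Finset (Fin N)),
    0 < n → (∀ A ∈ E, A.card = n) → 0 < t → 0 < θ₁ → 0 ≤ qb →
    (∀ w, ((T.filter (fun B => w ∈ Bl B)).card : ℝ) ≤ (E.card : ℝ) * qb) →
    ∑ B ∈ T, (if t / 4 ≤ ((Bl B ∩ Un E S).card : ℝ) ∧ t / 4 ≤ (Wn E S : ℝ) then (1 : ℝ) else 0) ≤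
      4 / t * ((E.card : ℝ) * qb) *
        (if t / 4 ≤ (Wn E S : ℝ) ∧ (Wn E S : ℝ) ≤ θ₁ then 2 * (n : ℝ) + Pet E S else 0) +
      (T.card : ℝ) * ((Wn E S : ℝ) / θ₁)

/-- THN: thinning. -/
def Stmt_THN : Prop :=
  ∀ (N : ℕ) (s ρ : ℝ) (F : Finset (Fin N) → ℝ),
    PS N (s * ρ) F = PS N s (fun S => thin ρ S F)

/-- KE1: the one step inequality (for a fixed set `S`). -/
def Stmt_KE1 : Prop :=
  ∀ (N n : ℕ) (E : Finset (Finset (Fin N))) (S : Finset (Fin N)) (ρ θ₀ θ₁ : ℝ),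
    0 < n → (∀ A ∈ E, A.card = n) → 0 < θ₀ → 2 * θ₀ ≤ θ₁ → 0 ≤ ρ → ρ ≤ 1 - 1 / (n : ℝ) →
    ρ ^ n * (if θ₀ ≤ (Wn E S : ℝ) ∧ (Wn E S : ℝ) ≤ θ₁ then Pet E S / (32 * (n : ℝ)) else 0) ≤
      thin ρ S (fun S' => (Wn E S' : ℝ) * (gg θ₀ θ₁ (Wn E S' : ℝ) - gg θ₀ θ₁ (Wn E S : ℝ)))

/-- KEY: the summed inequality. -/
def Stmt_KEY : Prop :=
  ∀ (N n K : ℕ) (E : Finset (Finset (Fin N))) (θ₀ θ₁ : ℝ),
    0 < n → K < n → (∀ A ∈ E, A.card = n) → 0 < θ₀ → 2 * θ₀ ≤ θ₁ →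
    ∑ i ∈ Icc 1 K, (dn n K i ^ n)⁻¹ * PS N (dn n K i)
      (fun S => if θ₀ ≤ (Wn E S : ℝ) ∧ (Wn E S : ℝ) ≤ θ₁ then Pet E S else 0) ≤
      32 * (n : ℝ) * (E.card : ℝ) * Real.log (θ₁ / θ₀)

/-- LG1: first part of the light lemma. -/
def Stmt_LG1 : Prop :=
  ∀ (N n K : ℕ) (E T : Finset (Finset (Fin N))) (Bl : Finset (Fin N) → Finset (Fin N))
    (η qb : ℝ),
    1 ≤ K → 10 * K ≤ n → (∀ A ∈ E, A.card = n) → T ⊆ E → 0 < η → η ≤ 1 → 23 ≤ η * n → 0 ≤ qb →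
    (∀ B ∈ T, Bl B ⊆ B) →
    (∀ w, ((T.filter (fun B => w ∈ Bl B)).card : ℝ) ≤ (E.card : ℝ) * qb) →
    ∑ B ∈ T, PE (W0 N n K)
        (fun x => Real.exp (2 * (cs K (η * n) (Bl B) (Yx E B x) : ℝ) - (K : ℝ))) ≤
      (T.card : ℝ) * Real.exp (-(K : ℝ)) +
        16 * (1 / 2 : ℝ) ^ n * (4 * (E.card : ℝ) ^ 2 * qb / η *
          (8 * (K : ℝ) / (η * n) + 32 * Real.log (4 * (K : ℝ) / η)) +
          (T.card : ℝ) * (E.card : ℝ) / (n : ℝ))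

/-- LG2: second part of the light lemma. -/
def Stmt_LG2 : Prop :=
  ∀ (N n K : ℕ) (E : Finset (Finset (Fin N))) (B : Finset (Fin N)),
    1 ≤ K → 10 * K ≤ n → (∀ A ∈ E, A.card = n) → B.card = n →
    PE (W0 N n K)
        (fun x => (∑ w ∈ B, Real.exp (2 * (cn K (Yx E B x) w : ℝ) - (K : ℝ))) / (n : ℝ)) ≤
      Real.exp (-(K : ℝ)) + 32 * (K : ℝ) * ((E.card : ℝ) / 2 ^ n) / (n : ℝ)

/-- LGT: the light lemma. -/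
def Stmt_LGT : Prop :=
  ∀ (N n K : ℕ) (E T : Finset (Finset (Fin N))) (Bl : Finset (Fin N) → Finset (Fin N))
    (d η qb : ℝ),
    1 ≤ K → 10 * K ≤ n → (∀ A ∈ E, A.card = n) → T ⊆ E → 0 ≤ d → 0 < η → d + η ≤ 1 →
    23 ≤ η * n → 0 ≤ qb →
    (∀ B ∈ T, Bl B ⊆ B) → (∀ B ∈ T, ((B \ Bl B).card : ℝ) ≤ d * n) →
    (∀ w, ((T.filter (fun B => w ∈ Bl B)).card : ℝ) ≤ (E.card : ℝ) * qb) →
    ∑ B ∈ T, PP (W0 N n K) (RedEv E B) ≤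
      (K : ℝ) ^ (d + η) * ((T.card : ℝ) / 2 ^ n * Real.exp (-(K : ℝ)) +
        16 * (4 * ((E.card : ℝ) / 2 ^ n) ^ 2 * qb / η *
          (8 * (K : ℝ) / (η * n) + 32 * Real.log (4 * (K : ℝ) / η)) +
          (T.card : ℝ) / 2 ^ n * ((E.card : ℝ) / 2 ^ n) / (n : ℝ))) +
      (K : ℝ) ^ (d + η - 1) * ((T.card : ℝ) / 2 ^ n) *
        (Real.exp (-(K : ℝ)) + 32 * (K : ℝ) * ((E.card : ℝ) / 2 ^ n) / (n : ℝ))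

/-! ## linear statistics -/

/-- HOE: Hoeffding's inequality for finite product weights. -/
def Stmt_HOE : Prop :=
  ∀ (V α : Type) [Fintype V] [DecidableEq V] [Fintype α] (w σ : V → α → ℝ) (c : V → ℝ) (t s : ℝ),
    IsW w → (∀ v a, |σ v a| ≤ 1) → 0 ≤ t → 0 < s → ∑ v, c v ^ 2 ≤ s →
    PP w (fun x => t ≤ ∑ v, c v * (σ v (x v) - ∑ a, w v a * σ v a)) ≤
      Real.exp (-(t ^ 2) / (16 * s))

/-- GL1: the linear statistics are small. -/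
def Stmt_GL1 : Prop :=
  ∀ (N n K : ℕ) (F : Finset (Fin N → ℝ)) (L : ℝ), 0 < n → K ≤ n → 0 ≤ L →
    PP (W0 N n K) (fun x => ∃ e ∈ F, L * nrm e < |sp x e|) ≤
      2 * (F.card : ℝ) * Real.exp (-(L ^ 2) / 16)

/-- DE1: a dead edge `A` is almost never inside the last level up to one vertex. -/
def Stmt_DE1 : Prop :=
  ∀ (N n K : ℕ) (A : Finset (Fin N)) (e : Fin N → ℝ) (L : ℝ) (w : Fin N),
    1 ≤ K → 10 * K ≤ n → 1 ≤ L → A.card = n → (∀ v, 0 ≤ e v) → 4 * L * nrm e < ip A e → w ∈ A →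
    PP (W0 N n K) (fun x => sp x e ≤ L * nrm e ∧ ∀ u ∈ A, u ≠ w → pos (x u) ≤ K) ≤
      dn n K K ^ (n - 1) * Real.exp (-(L ^ 2) / 16)

/-- DE2: a dead edge `A` almost never avoids the level zero. -/
def Stmt_DE2 : Prop :=
  ∀ (N n K : ℕ) (A : Finset (Fin N)) (e : Fin N → ℝ) (L : ℝ),
    1 ≤ K → 10 * K ≤ n → 1 ≤ L → A.card = n → (∀ v, 0 ≤ e v) → 4 * L * nrm e < ip A e →
    PP (W0 N n K) (fun x => -(L * nrm e) ≤ sp x e ∧ ∀ u ∈ A, 1 ≤ pos (x u)) ≤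
      dn n K K ^ n * Real.exp (-(L ^ 2) / 16)

/-- The alive edges for a family of vectors. -/
noncomputable def alive {N : ℕ} (E : Finset (Finset (Fin N))) (F : Finset (Fin N → ℝ)) (L : ℝ) :
    Finset (Finset (Fin N)) := by
  classical
  exact E.filter (fun A => ∀ e ∈ F, ip A e ≤ 4 * L * nrm e)

/-- REG: the regularisation lemma (deterministic). -/
def Stmt_REG : Prop :=
  ∀ (N n K : ℕ) (E : Finset (Finset (Fin N))) (L δ C₁ : ℝ),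
    2 ≤ n → 1 ≤ K → (∀ A ∈ E, A.card = n) → 1 ≤ L → 0 < δ → 0 < C₁ →
    16 * L ^ 2 ≤ δ ^ 2 * C₁ * K →
    ∃ (F : Finset (Fin N → ℝ)) (Vn : Finset (Fin N)),
      (F.card : ℝ) ≤ (n : ℝ) ^ 6 ∧ (∀ e ∈ F, ∀ v, 0 ≤ e v) ∧
      (∀ v ∈ Vn, qv E v ≤ C₁ * K / n) ∧
      (∀ B ∈ alive E F L, ((B \ Vn).card : ℝ) ≤ δ * n) ∧
      (∀ B ∈ alive E F L, (∑ B' ∈ alive E F L, (Xv Vn B B' : ℝ) ^ 2) / (E.card : ℝ) ≤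
        48 * L ^ 2 * C₁ * K + 1)

/-! ## the quadratic statistic -/

/-- QVR: second moment of an off-diagonal quadratic form. -/
def Stmt_QVR : Prop :=
  ∀ (N : ℕ) (α : Type) [Fintype α] (w ζ : Fin N → α → ℝ) (M : Fin N → Fin N → ℝ),
    IsW w → (∀ u v, M u v = M v u) → (∀ v, ∑ a, w v a * ζ v a = 0) →
    (∀ v, ∑ a, w v a * ζ v a ^ 2 ≤ 1) →
    PE w (fun x => Qs M (fun v => ζ v (x v)) ^ 2) ≤ 2 * ∑ u, ∑ v, M u v ^ 2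

/-- PKG: general lower tail of a quadratic form in signs. -/
def Stmt_PKG : Prop :=
  ∀ (N : ℕ) (α : Type) [Fintype α] (w σ : Fin N → α → ℝ) (M : Fin N → Fin N → ℝ)
    (a : Fin N → ℝ) (Da Λ τ₁ τ₂ Vv R : ℝ),
    IsW w → (∀ u v, M u v = M v u) → (∀ v b, σ v b ^ 2 = 1) →
    (∀ v, ∑ b, w v b * σ v b = a v) →
    Da = ∑ u, ∑ v, M u v * a u * a v →
    ∑ u, (∑ v, M u v * a v) ^ 2 ≤ Λ * Da →
    ∑ u, M u u * a u ^ 2 ≤ τ₁ → ∑ u, (M u u * a u) ^ 2 ≤ τ₂ → ∑ u, ∑ v, M u v ^ 2 ≤ Vv →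
    0 < Da → 0 < Λ → 0 ≤ τ₂ → R + τ₁ ≤ Da / 2 →
    PP w (fun x => Qs M (fun v => σ v (x v)) ≤ R) ≤
      Real.exp (-(Da ^ 2) / (1024 * (2 * Λ * Da + 2 * τ₂))) + 32 * Vv / Da ^ 2

/-- MXS: properties of the matrix `Mx`. -/
def Stmt_MXS : Prop :=
  ∀ (N n : ℕ) (E E' : Finset (Finset (Fin N))) (Vn : Finset (Fin N)) (qs Vs : ℝ),
    0 < n → (∀ A ∈ E, A.card = n) → E' ⊆ E → 0 ≤ qs → 0 ≤ Vs → (∀ v ∈ Vn, qv E v ≤ qs) →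
    (∀ B ∈ E', (∑ B' ∈ E', (Xv Vn B B' : ℝ) ^ 2) / (E.card : ℝ) ≤ Vs) →
    (∀ u v, Mx E E' Vn u v = Mx E E' Vn v u) ∧
    (∀ u v, 0 ≤ Mx E E' Vn u v) ∧
    (∀ u, Mx E E' Vn u u ≤ qs) ∧
    (∑ u, ∑ v, Mx E E' Vn u v ^ 2 ≤ Vs) ∧
    (∀ a : Fin N → ℝ, ∑ u, ∑ v, Mx E E' Vn u v * a u * a v =
      (∑ B' ∈ E', (∑ v ∈ B' ∩ Vn, a v) ^ 2) / (E.card : ℝ)) ∧
    (∀ a : Fin N → ℝ, ∑ u, (∑ v, Mx E E' Vn u v * a v) ^ 2 ≤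
      (n * qs) * ∑ u, ∑ v, Mx E E' Vn u v * a u * a v)

/-- GL3: the quadratic statistic is small. -/
def Stmt_GL3 : Prop :=
  ∀ (N n K : ℕ) (M : Fin N → Fin N → ℝ) (Vs : ℝ), 0 < n → K ≤ n → 0 < Vs →
    (∀ u v, M u v = M v u) → ∑ u, ∑ v, M u v ^ 2 ≤ Vs →
    PP (W0 N n K) (fun x => 10 * Real.sqrt Vs < Qs M (fun v => sg (x v))) ≤ 1 / 50

/-- PPE: probability of the pair event. -/
def Stmt_PPE : Prop :=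
  ∀ (N n K : ℕ) (A B : Finset (Fin N)) (w : Fin N) (i : ℕ),
    10 * K ≤ n → 1 ≤ i → i ≤ K → A.card = n → B.card = n → A ∩ B = {w} →
    PP (W0 N n K) (PairEv A B w i) ≤ 220 * (1 / 4 : ℝ) ^ n / (n : ℝ)

/-- PKE: probability of the pair event together with a small quadratic statistic. -/
def Stmt_PKE : Prop :=
  ∀ (N n K : ℕ) (E E' : Finset (Finset (Fin N))) (Vn A B : Finset (Fin N)) (w : Fin N) (i : ℕ)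
    (qs Vs : ℝ),
    1 ≤ K → 10 * K ≤ n → (∀ A ∈ E, A.card = n) → E' ⊆ E → A ∈ E' → B ∈ E' → A ∩ B = {w} →
    1 ≤ i → i ≤ K → 0 < qs → qs ≤ 1 → 0 < Vs → (∀ v ∈ Vn, qv E v ≤ qs) →
    (∀ B ∈ E', (∑ B' ∈ E', (Xv Vn B B' : ℝ) ^ 2) / (E.card : ℝ) ≤ Vs) →
    16 ≤ Dd E E' Vn A B → 4 * (K : ℝ) / n * Real.sqrt Vs ≤ 1 →
    10 * Real.sqrt Vs + 2 * (n * qs) ≤ Dd E E' Vn A B / 4 →
    PP (W0 N n K)
        (fun x => PairEv A B w i x ∧ Qs (Mx E E' Vn) (fun v => sg (x v)) ≤ 10 * Real.sqrt Vs) ≤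
      220 * (1 / 4 : ℝ) ^ n / (n : ℝ) *
        (Real.exp (-(Dd E E' Vn A B / (6144 * (n * qs)))) + 128 * Vs / Dd E E' Vn A B ^ 2)

/-! ## classes and pool -/

/-- CLS: the greedy classification. -/
def Stmt_CLS : Prop :=
  ∀ (α : Type) [DecidableEq α] (P Q : Finset α) (R : α → α → Prop) [DecidableRel R] (t : ℝ),
    0 < t →
    ∃ Cl : Finset (Finset α),
      (∀ T ∈ Cl, T ⊆ P ∧ (∃ A ∈ Q, ∀ B ∈ T, R A B) ∧ t < (T.card : ℝ)) ∧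
      (∀ T ∈ Cl, ∀ T' ∈ Cl, T ≠ T' → Disjoint T T') ∧
      ∀ A ∈ Q, (((P \ Cl.biUnion id).filter (R A)).card : ℝ) ≤ t

/-- CL1: the light part of the edges of a class. -/
def Stmt_CL1 : Prop :=
  ∀ (N n : ℕ) (E E' T : Finset (Finset (Fin N))) (Vn A : Finset (Fin N)) (Ds δ K₂ : ℝ),
    0 < n → (∀ A ∈ E, A.card = n) → E' ⊆ E → T ⊆ E' → (∀ B ∈ T, (A ∩ B).card = 1) →
    (∀ B ∈ T, Dd E E' Vn A B ≤ Ds) → (∀ B ∈ T, ((B \ Vn).card : ℝ) ≤ δ * n) → 0 < K₂ → 0 ≤ Ds →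
    ∃ Bl : Finset (Fin N) → Finset (Fin N),
      (∀ B ∈ T, Bl B ⊆ B) ∧ (∀ B ∈ T, ((B \ Bl B).card : ℝ) ≤ (δ + 1 / K₂) * n) ∧
      ∀ w, ((T.filter (fun B => w ∈ Bl B)).card : ℝ) ≤
        (E.card : ℝ) * (K₂ * (mu E T + Real.sqrt (mu E T * Ds)) / n)

/-- Cost of the classes. -/
noncomputable def cost5 (n K : ℕ) (k δ K₂ η Ds ρ : ℝ) : ℝ :=
  (K : ℝ) ^ (δ + 1 / K₂ + η) * (k * Real.exp (-(K : ℝ)) +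
    16 * (4 * k ^ 2 * (K₂ * (1 + Real.sqrt (Ds / ρ)) / n) / η *
      (8 * (K : ℝ) / (η * n) + 32 * Real.log (4 * (K : ℝ) / η)) + k ^ 2 / n)) +
  (K : ℝ) ^ (δ + 1 / K₂ + η - 1) * k * (Real.exp (-(K : ℝ)) + 32 * (K : ℝ) * k / n)

/-- CLC: total cost of the classes. -/
def Stmt_CLC : Prop :=
  ∀ (N n K : ℕ) (E E' : Finset (Finset (Fin N))) (Vn : Finset (Fin N))
    (Cl : Finset (Finset (Finset (Fin N)))) (δ K₂ η Ds ρ : ℝ),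
    1 ≤ K → 10 * K ≤ n → (∀ A ∈ E, A.card = n) → E' ⊆ E → 0 < δ → 0 < K₂ → 0 < η →
    δ + 1 / K₂ + η ≤ 1 → 23 ≤ η * n → 0 ≤ Ds → 0 < ρ →
    (∀ B ∈ E', ((B \ Vn).card : ℝ) ≤ δ * n) →
    (∀ T ∈ Cl, T ⊆ E' ∧ (∃ A ∈ E', ∀ B ∈ T, (A ∩ B).card = 1 ∧ Dd E E' Vn A B ≤ Ds) ∧
      ρ * (E.card : ℝ) < (T.card : ℝ)) →
    (∀ T ∈ Cl, ∀ T' ∈ Cl, T ≠ T' → Disjoint T T') →
    ∑ T ∈ Cl, ∑ B ∈ T, PP (W0 N n K) (RedEv E B) ≤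
      cost5 n K ((E.card : ℝ) / 2 ^ n) δ K₂ η Ds ρ

/-- Cost of the pool. -/
noncomputable def cost6 (n K : ℕ) (k C₁ Vs Ds ρ : ℝ) : ℝ :=
  220 * k ^ 2 * ((K : ℝ) / n) * (ρ + Real.exp (-(Ds / (6144 * (C₁ * K)))) + 128 * Vs / Ds ^ 2)

/-- POL: total cost of the pool. -/
def Stmt_POL : Prop :=
  ∀ (N n K : ℕ) (E E' P : Finset (Finset (Fin N))) (Vn : Finset (Fin N)) (C₁ Vs Ds ρ : ℝ),
    1 ≤ K → 10 * K ≤ n → (∀ A ∈ E, A.card = n) → E' ⊆ E → P ⊆ E' → 0 < C₁ → C₁ * K ≤ n →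
    0 < Vs → (∀ v ∈ Vn, qv E v ≤ C₁ * K / n) →
    (∀ B ∈ E', (∑ B' ∈ E', (Xv Vn B B' : ℝ) ^ 2) / (E.card : ℝ) ≤ Vs) →
    16 ≤ Ds → 4 * (K : ℝ) / n * Real.sqrt Vs ≤ 1 →
    10 * Real.sqrt Vs + 2 * (C₁ * K) ≤ Ds / 4 → 0 ≤ ρ →
    (∀ A ∈ E', ((P.filter (fun B => (A ∩ B).card = 1 ∧ Dd E E' Vn A B ≤ Ds)).card : ℝ) ≤
      ρ * (E.card : ℝ)) →
    PP (W0 N n K) (fun x => Qs (Mx E E' Vn) (fun v => sg (x v)) ≤ 10 * Real.sqrt Vs ∧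
      ∃ B ∈ P, ∃ A ∈ E', ∃ w, ∃ i ∈ Icc 1 K, A ∩ B = {w} ∧ PairEv A B w i x) ≤
      cost6 n K ((E.card : ℝ) / 2 ^ n) C₁ Vs Ds ρ

/-- FIN: the finite theorem. -/
def Stmt_FIN : Prop :=
  ∀ (N n K : ℕ) (E : Finset (Finset (Fin N))) (L δ K₂ η C₁ Vs Ds ρ : ℝ),
    1 ≤ K → 10 * K ≤ n → (∀ A ∈ E, A.card = n) →
    1 ≤ L → 0 < δ → 0 < K₂ → 0 < η → δ + 1 / K₂ + η ≤ 1 → 23 ≤ η * n → 0 < C₁ → C₁ * K ≤ n →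
    16 * L ^ 2 ≤ δ ^ 2 * C₁ * K → Vs = 48 * L ^ 2 * C₁ * K + 1 →
    16 ≤ Ds → 4 * (K : ℝ) / n * Real.sqrt Vs ≤ 1 →
    10 * Real.sqrt Vs + 2 * (C₁ * K) ≤ Ds / 4 → 0 < ρ →
    2 * ((E.card : ℝ) / 2 ^ n) * Real.exp (-(K : ℝ)) +
      2 * (n : ℝ) ^ 6 * Real.exp (-(L ^ 2) / 16) + 1 / 50 +
      (E.card : ℝ) / 2 ^ n * (4 * n + 1) * Real.exp ((K : ℝ) - L ^ 2 / 16) +
      cost5 n K ((E.card : ℝ) / 2 ^ n) δ K₂ η Ds ρ +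
      cost6 n K ((E.card : ℝ) / 2 ^ n) C₁ Vs Ds ρ < 1 →
    ∃ f : Fin N → Bool, ∀ A ∈ E, (∃ v ∈ A, f v = true) ∧ ∃ v ∈ A, f v = false

/-! ## numerics and the final statement -/

/-- NM5: the class cost tends to zero. -/
def Stmt_NM5 : Prop :=
  ∀ ε : ℝ, 0 < ε → ∃ n₀ : ℕ, ∀ n : ℕ, n₀ ≤ n → ∀ k : ℝ, 0 ≤ k →
    k ≤ Real.sqrt n / Real.log n ^ (3 / 8 : ℝ) →
    cost5 n ⌈Real.log n⌉₊ k (1 / 200) 200 (1 / 200)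
      ((⌈Real.log n⌉₊ : ℝ) ^ (8 / 7 : ℝ)) ((⌈Real.log n⌉₊ : ℝ) ^ (-(2 / 7) : ℝ)) ≤ ε

/-- NM6: the pool cost tends to zero. -/
def Stmt_NM6 : Prop :=
  ∀ ε : ℝ, 0 < ε → ∃ n₀ : ℕ, ∀ n : ℕ, n₀ ≤ n → ∀ k : ℝ, 0 ≤ k →
    k ≤ Real.sqrt n / Real.log n ^ (3 / 8 : ℝ) →
    cost6 n ⌈Real.log n⌉₊ k 71680000
      (48 * (112 * Real.log n) * 71680000 * (⌈Real.log n⌉₊ : ℝ) + 1)
      ((⌈Real.log n⌉₊ : ℝ) ^ (8 / 7 : ℝ)) ((⌈Real.log n⌉₊ : ℝ) ^ (-(2 / 7) : ℝ)) ≤ ε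

/-- NM1: the remaining costs tend to zero. -/
def Stmt_NM1 : Prop :=
  ∀ ε : ℝ, 0 < ε → ∃ n₀ : ℕ, ∀ n : ℕ, n₀ ≤ n → ∀ k : ℝ, 0 ≤ k →
    k ≤ Real.sqrt n / Real.log n ^ (3 / 8 : ℝ) →
    2 * k * Real.exp (-(⌈Real.log n⌉₊ : ℝ)) + 2 * (n : ℝ) ^ 6 * Real.exp (-(112 * Real.log n) / 16) +
      k * (4 * n + 1) * Real.exp ((⌈Real.log n⌉₊ : ℝ) - 112 * Real.log n / 16) ≤ ε

/-- NMH: the numerical hypotheses hold for large `n`. -/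
def Stmt_NMH : Prop :=
  ∃ n₀ : ℕ, ∀ n : ℕ, n₀ ≤ n → ∀ K : ℕ, K = ⌈Real.log n⌉₊ →
    1 ≤ K ∧ 10 * K ≤ n ∧ 1 ≤ 112 * Real.log n ∧ (23 : ℝ) ≤ 1 / 200 * n ∧
    71680000 * (K : ℝ) ≤ n ∧
    16 * (112 * Real.log n) ≤ (1 / 200) ^ 2 * 71680000 * K ∧
    16 ≤ (K : ℝ) ^ (8 / 7 : ℝ) ∧
    4 * (K : ℝ) / n * Real.sqrt (48 * (112 * Real.log n) * 71680000 * K + 1) ≤ 1 ∧
    10 * Real.sqrt (48 * (112 * Real.log n) * 71680000 * K + 1) + 2 * (71680000 * K) ≤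
      (K : ℝ) ^ (8 / 7 : ℝ) / 4

/-- COLTHM: the main theorem in terms of colourings. -/
def Stmt_MAIN : Prop :=
  ∃ n₀ : ℕ, ∀ n : ℕ, n₀ ≤ n → ∀ (N : ℕ) (H : Finset (Finset (Fin N))), (∀ A ∈ H, A.card = n) →
    (H.card : ℝ) ≤ 2 ^ n * Real.sqrt n / Real.log n ^ (3 / 8 : ℝ) →
    ∃ f : Fin N → Bool, ∀ A ∈ H, (∃ v ∈ A, f v = true) ∧ ∃ v ∈ A, f v = false

/-- MNT: translation to the number `m(n)`. -/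
def Stmt_MNT : Prop :=
  Stmt_MAIN →
  ∀ m : ℕ → ℕ,
    (∀ n : ℕ, m n = sInf {k : ℕ | ∃ N : ℕ, ∃ H : Finset (Finset (Fin N)),
        H.card = k ∧ (∀ e ∈ H, e.card = n) ∧
        ∀ f : Fin N → Bool, ∃ e ∈ H, ∃ b : Bool, ∀ x ∈ e, f x = b}) →
    (∃ n₀ : ℕ, ∀ n : ℕ, n₀ ≤ n →
      2 ^ n * Real.sqrt n / Real.log n ^ (3 / 8 : ℝ) ≤ (m n : ℝ)) ∧
    Filter.Tendsto (fun n : ℕ => (m n : ℝ) / (2 ^ n * Real.sqrt (n / Real.log n)))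
      Filter.atTop Filter.atTop

end Pool.Agent.PRB
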